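import Pool.Agent.H2.NL.Basic

/-!
# Numerically trivial correspondences (MP_fd35e1_ag): row ADJ, adjoints
-/

set_option autoImplicit false

open Matrix Pool.Agent.H2.NL Pool.Agent.H64.CC

namespace Pool.Agent.H45.NL

theorem opw_one {K : Type} [Field K] {I : Type} [Fintype I] (η : Matrix I I K) (t : List I → K)
    (a b : I) : opw η 1 t [a] [b] = ∑ c, t [a, c] * η c b := by
  unfold opw
  let e : I ≃ List.Vector I 1 :=
    { toFun := fun c => ⟨[c], rfl⟩
      invFun := fun v => v.head
      left_inv := fun c => rfl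
      right_inv := fun v => by
        obtain ⟨l, hl⟩ := v
        match l, hl with
        | [c], _ => rfl }
  rw [← e.sum_comp]
  refine Finset.sum_congr rfl fun c _ => ?_
  show t [a, c] * (List.zipWith (fun a b => η a b) [c] [b]).prod = _
  simp

theorem odds_two {I : Type} (o : I → Bool) (a b : I) : Even (odds o [a, b]) ↔ o a = o b := by
  unfold odds
  cases ha : o a <;> cases hb : o b <;> simp [List.filter, ha, hb]

theorem form_par {K : Type} [Field K] [CharZero K] {W : Weil K} {m : ℕ} {T : W.Var m}
    (P : W.Powers T) (a b : Fin (W.rk T)) (h : P.form a b ≠ 0) : W.par T a = W.par T b := by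
  have h1 := P.form_deg a b h
  unfold Weil.par
  have h2 : Odd (W.deg T a) ↔ Odd (W.deg T b) := by
    rw [Nat.odd_iff, Nat.odd_iff]
    omega
  simp [h2]

theorem pf_ADJ : T_ADJ := by
  intro K _ _ W m T P f hf
  obtain ⟨t, ht, hft⟩ := (P.graph_one f).1 hf
  have h1 : sw (W.par T) 0 t ∈ P.toPowerData.classes 1 := P.calculus.sw 1 0 t ht (by omega)
  refine ⟨Matrix.of fun a b => opw P.form 1 (sw (W.par T) 0 t) [a] [b],
    (P.graph_one _).2 ⟨_, h1, rfl⟩, ?_⟩
  have hX : ∀ d c, t [d, c] ≠ 0 → W.par T d = W.par T c := by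
    intro d c h
    have h2 := P.calculus.even 1 t [d, c] ht rfl h
    exact (odds_two _ _ _).1 h2
  ext a b
  rw [Matrix.mul_apply, Matrix.mul_apply, hft]
  simp only [Matrix.transpose_apply, Matrix.of_apply, opw_one]
  simp only [Finset.sum_mul, Finset.mul_sum]
  -- left: sum over d of sum over c of t [d, c] * form c a * form d b
  rw [Finset.sum_comm]
  refine Finset.sum_congr rfl fun c _ => Finset.sum_congr rfl fun d _ => ?_
  show t [d, c] * P.form c a * P.form d b =
    P.form a c * (ks K (W.par T c) (W.par T d) * t [d, c] * P.form d b)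
  by_cases h2 : P.form c a = 0
  · rw [P.form_symm a c, h2]
    ring
  by_cases h3 : t [d, c] = 0
  · rw [h3]
    ring
  have h4 := form_par P c a h2
  have h5 := hX d c h3
  rw [P.form_symm a c, ← h4, ← h5]
  have h6 := ks_mul_self K (W.par T d) (W.par T d)
  linear_combination (-(t [d, c] * P.form c a * P.form d b)) * h6

end Pool.Agent.H45.NL
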