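import Pool.Agent.H45.NL.SCA

/-!
# Numerically trivial correspondences (MP_fd35e1_ag): row EPS, the maximal self-adjoint idempotent
-/

set_option autoImplicit false

open Matrix Pool.Agent.H2.NL Pool.Agent.H64.CC

namespace Pool.Agent.H45.NL

theorem poly_ind {K : Type} [Field K] [CharZero K] {m : ℕ} (x : Matrix (Fin m) (Fin m) K)
    (P : Matrix (Fin m) (Fin m) K → Prop) (h0 : P 0) (ha : ∀ a b, P a → P b → P (a + b))
    (hs : ∀ (q : ℚ) a, P a → P (q • a)) (hp : ∀ i : ℕ, P (x ^ (i + 1))) (g : Polynomial ℚ) :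
    P (x * Polynomial.aeval x g) := by
  rw [Polynomial.aeval_eq_sum_range, Finset.mul_sum]
  refine Finset.sum_induction _ P ha h0 ?_
  intro i _
  rw [mul_smul_comm, ← pow_succ']
  exact hs _ _ (hp i)

section weil

variable {K : Type} [Field K] [CharZero K] {W : Weil K} {m : ℕ} {T : W.Var m}

/-- the sign matrix -/
def Sg {K : Type} [Field K] [CharZero K] (W : Weil K) {m : ℕ} (T : W.Var m) : W.Hom T T :=
  Matrix.diagonal fun a => (-1 : K) ^ W.deg T a

theorem Sg_sq : Sg W T * Sg W T = 1 := by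
  unfold Sg
  rw [Matrix.diagonal_mul_diagonal, ← Matrix.diagonal_one]
  congr 1
  funext a
  rw [← mul_pow]
  norm_num

theorem str_eq (f : W.Hom T T) : W.str f = (Sg W T * f).trace := by
  unfold Weil.str Sg Matrix.trace
  refine Finset.sum_congr rfl fun a _ => ?_
  rw [Matrix.diag_apply, Matrix.diagonal_mul]

theorem Sg_comm (f : W.Hom T T) (hf : W.HasDeg 0 f) : Sg W T * f = f * Sg W T := by
  ext a b
  unfold Sg
  rw [Matrix.diagonal_mul, Matrix.mul_diagonal]
  by_cases h : f a b = 0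
  · rw [h]
    ring
  · have h1 := hf a b h
    have h2 : W.deg T a = W.deg T b := by omega
    rw [h2]
    ring

theorem Sg_form (P : W.Powers T) : Sg W T * P.form = P.form * Sg W T := by
  ext a b
  unfold Sg
  rw [Matrix.diagonal_mul, Matrix.mul_diagonal]
  by_cases h : P.form a b = 0
  · rw [h]
    ring
  · have h1 := P.form_deg a b h
    have h2 : (-1 : K) ^ W.deg T a = (-1 : K) ^ W.deg T b := by
      have h3 : (-1 : K) ^ W.deg T a * (-1 : K) ^ W.deg T b = 1 := by
        rw [← pow_add, h1, pow_mul]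
        norm_num
      have h4 : (-1 : K) ^ W.deg T b * (-1 : K) ^ W.deg T b = 1 := by
        rw [← mul_pow]
        norm_num
      have h5 : (-1 : K) ^ W.deg T b ≠ 0 := by
        intro h0
        rw [h0] at h4
        simp at h4
      exact mul_right_cancel₀ h5 (h3.trans h4.symm)
    rw [h2]
    ring

theorem form_tr (P : W.Powers T) : (P.form)ᵀ = Sg W T * P.form := by
  ext a b
  unfold Sg
  rw [Matrix.diagonal_mul, Matrix.transpose_apply, P.form_symm b a]
  by_cases h : P.form a b = 0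
  · rw [h]
    ring
  · have h1 := form_par P a b h
    rw [← h1, ks_self]
    congr 1
    unfold sg Weil.par
    by_cases h2 : Odd (W.deg T a)
    · simp [h2, h2.neg_one_pow]
    · rw [Nat.not_odd_iff_even] at h2
      simp [h2, h2.neg_one_pow]

theorem deg_zero_tr (f : W.Hom T T) (hf : W.HasDeg 0 f) : Sg W T * fᵀ = fᵀ * Sg W T := by
  have h := congrArg Matrix.transpose (Sg_comm f hf)
  rw [Matrix.transpose_mul, Matrix.transpose_mul] at h
  have h2 : (Sg W T)ᵀ = Sg W T := by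
    unfold Sg
    exact Matrix.diagonal_transpose _
  rw [h2] at h
  exact h.symm

theorem adj_adj (P : W.Powers T) (f f' : W.Hom T T) (hf' : W.HasDeg 0 f')
    (h : fᵀ * P.form = P.form * f') : f'ᵀ * P.form = P.form * f := by
  have h1 := congrArg Matrix.transpose h
  rw [Matrix.transpose_mul, Matrix.transpose_mul, Matrix.transpose_transpose, form_tr P] at h1
  have h2 : f'ᵀ * (Sg W T * P.form) = Sg W T * (f'ᵀ * P.form) := by
    rw [← Matrix.mul_assoc, ← deg_zero_tr f' hf', Matrix.mul_assoc]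
  rw [h2, Matrix.mul_assoc] at h1
  have h3 := congrArg (fun A => Sg W T * A) h1
  simp only [← Matrix.mul_assoc, Sg_sq, Matrix.one_mul] at h3
  exact h3.symm

theorem str_adj (P : W.Powers T) (f f' : W.Hom T T)
    (h : fᵀ * P.form = P.form * f') : W.str f' = W.str f := by
  obtain ⟨η', h1, h2⟩ : ∃ η' : W.Hom T T, P.form * η' = 1 ∧ η' * P.form = 1 := by
    obtain ⟨u, hu⟩ := P.form_unit
    refine ⟨u⁻¹.val, ?_, ?_⟩
    · rw [← hu, Units.mul_inv]
    · rw [← hu, Units.inv_mul]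
  have h3 : f' = η' * (fᵀ * P.form) := by
    rw [h, ← Matrix.mul_assoc, h2, Matrix.one_mul]
  rw [str_eq, str_eq, h3]
  have h4 : Sg W T * (η' * (fᵀ * P.form)) = (Sg W T * η' * fᵀ) * P.form := by
    simp only [Matrix.mul_assoc]
  rw [h4, Matrix.trace_mul_comm]
  have h5 : P.form * (Sg W T * η' * fᵀ) = Sg W T * fᵀ := by
    rw [Matrix.mul_assoc, ← Matrix.mul_assoc P.form, ← Sg_form P, Matrix.mul_assoc,
      ← Matrix.mul_assoc P.form, h1, Matrix.one_mul]
  rw [h5, ← Matrix.trace_transpose, Matrix.transpose_mul, Matrix.transpose_transpose]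
  have h6 : (Sg W T)ᵀ = Sg W T := by
    unfold Sg
    exact Matrix.diagonal_transpose _
  rw [h6, Matrix.trace_mul_comm]

theorem str_mul_comm (x y : W.Hom T T) (hx : W.HasDeg 0 x) : W.str (x * y) = W.str (y * x) := by
  rw [str_eq, str_eq, ← Matrix.mul_assoc, Sg_comm x hx, Matrix.mul_assoc, Matrix.trace_mul_comm,
    Matrix.mul_assoc]

theorem str_nilp (x : W.Hom T T) (hx : W.HasDeg 0 x) (N : ℕ) (h : x ^ N = 0) : W.str x = 0 := by
  rw [str_eq]
  have h1 : IsNilpotent (Sg W T * x) := by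
    refine ⟨N, ?_⟩
    have h2 : Commute (Sg W T) x := Sg_comm x hx
    rw [h2.mul_pow, h, mul_zero]
  exact (Matrix.isNilpotent_trace_of_isNilpotent h1).eq_zero

end weil

theorem pf_EPS (_hVAN : T_VAN) (hSCA : T_SCA) (hADJ : T_ADJ) (hRTR : T_RTR) (hFTT : T_FTT) :
    T_EPS := by
  intro K _ _ W hW V L hL r m T S
  have hcal := hW.calculus
  obtain ⟨v0, hv0n, hv0d, hv0k⟩ := S.vanishing
  have hv0 : W.Vanishing S.toGenericIntersection v0 := ⟨hv0d, hv0k⟩
  let J : W.Hom T T → Prop := fun f => f ∈ W.cyc T T 0 ∧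
    ∀ u, W.Vanishing S.toGenericIntersection u → f *ᵥ u = 0
  have hdeg : ∀ f ∈ W.cyc T T 0, W.HasDeg 0 f := fun f hf => hcal.cyc_deg T T 0 f hf
  have hmul : ∀ f ∈ W.cyc T T 0, ∀ g ∈ W.cyc T T 0, g * f ∈ W.cyc T T 0 := by
    intro f hf g hg
    have h := hcal.comp_mem T T T 0 0 f hf g hg
    rw [add_zero] at h
    exact h
  have hone : (1 : W.Hom T T) ∈ W.cyc T T 0 := hcal.one_mem T
  have J0 : J 0 := ⟨(W.cyc T T 0).zero_mem, fun u _ => Matrix.zero_mulVec u⟩
  have Jadd : ∀ a b, J a → J b → J (a + b) := by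
    intro a b ha hb
    refine ⟨(W.cyc T T 0).add_mem ha.1 hb.1, fun u hu => ?_⟩
    rw [Matrix.add_mulVec, ha.2 u hu, hb.2 u hu, add_zero]
  have Jsmul : ∀ (q : ℚ) a, J a → J (q • a) := by
    intro q a ha
    refine ⟨(W.cyc T T 0).smul_mem q ha.1, fun u hu => ?_⟩
    rw [Matrix.smul_mulVec, ha.2 u hu, smul_zero]
  have Jmul : ∀ a b, a ∈ W.cyc T T 0 → J b → J (a * b) := by
    intro a b ha hb
    refine ⟨hmul b hb.1 a ha, fun u hu => ?_⟩
    rw [← Matrix.mulVec_mulVec, hb.2 u hu, Matrix.mulVec_zero]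
  have Jpow : ∀ x, J x → ∀ i : ℕ, J (x ^ (i + 1)) := by
    intro x hx i
    induction i with
    | zero => rw [zero_add, pow_one]; exact hx
    | succ i ih =>
      rw [pow_succ]
      exact Jmul _ _ ih.1 hx
  -- the elements of `J` are restrictions
  have Jres : ∀ x, J x → ∃ c ∈ W.cyc V V (-(r : ℤ)), x = W.comp (W.comp S.up c) S.down := by
    intro x hx
    obtain ⟨q, c, hc, hxe⟩ := hSCA K W hW V L hL r m T S x hx.1
    have h1 := hx.2 v0 hv0
    have h2 : W.comp (W.comp S.up c) S.down *ᵥ v0 = 0 := by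
      show (S.up * c * S.down) *ᵥ v0 = 0
      rw [← Matrix.mulVec_mulVec]
      have h3 : S.down *ᵥ v0 = 0 := hv0k
      rw [h3, Matrix.mulVec_zero]
    have h3 : W.rat q (W.id T) *ᵥ v0 = (q : K) • v0 := by
      show ((q : K) • (1 : W.Hom T T)) *ᵥ v0 = _
      rw [Matrix.smul_mulVec, Matrix.one_mulVec]
    rw [hxe, Matrix.add_mulVec, h2, h3, add_zero] at h1
    have h4 : (q : K) = 0 := by
      rcases smul_eq_zero.1 h1 with h | h
      · exact h
      · exact absurd h hv0n
    refine ⟨c, hc, ?_⟩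
    rw [hxe]
    have h5 : W.rat q (W.id T) = 0 := by
      show (q : K) • (1 : W.Hom T T) = 0
      rw [h4, zero_smul]
    rw [h5, zero_add]
  have Jadj : ∀ x, J x → ∃ x', J x' ∧ xᵀ * S.powers.form = S.powers.form * x' := by
    intro x hx
    obtain ⟨x', hx', he⟩ := hADJ K W m T S.powers x hx.1
    refine ⟨x', ⟨hx', ?_⟩, he⟩
    intro u hu
    obtain ⟨c, -, hc⟩ := Jres x hx
    have h1 : S.powers.form *ᵥ (x' *ᵥ u) = 0 := by
      refine dotProduct_eq_zero _ (fun y => ?_)
      rw [dotProduct_comm, Matrix.mulVec_mulVec, ← he, ← Matrix.mulVec_mulVec,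
        Matrix.dotProduct_mulVec, Matrix.vecMul_transpose]
      have h2 : x *ᵥ y = W.ap S.up (c *ᵥ (S.down *ᵥ y)) := by
        rw [hc]
        show (S.up * c * S.down) *ᵥ y = S.up *ᵥ (c *ᵥ (S.down *ᵥ y))
        rw [Matrix.mulVec_mulVec, Matrix.mulVec_mulVec]
      rw [h2, van_swap S u _ hu.1, van_orth S u hu, neg_zero]
    obtain ⟨η', -, h2⟩ : ∃ η' : W.Hom T T, S.powers.form * η' = 1 ∧ η' * S.powers.form = 1 := by
      obtain ⟨w, hw⟩ := S.powers.form_unit
      refine ⟨w⁻¹.val, ?_, ?_⟩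
      · rw [← hw, Units.mul_inv]
      · rw [← hw, Units.inv_mul]
    have h3 : x' *ᵥ u = η' *ᵥ (S.powers.form *ᵥ (x' *ᵥ u)) := by
      rw [Matrix.mulVec_mulVec, Matrix.mulVec_mulVec, h2, Matrix.one_mul]
    rw [h3, h1, Matrix.mulVec_zero]
  -- self-adjoint idempotents of maximal rank
  let E : W.Hom T T → Prop := fun e => J e ∧ e * e = e ∧ eᵀ * S.powers.form = S.powers.form * e
  let rg : W.Hom T T → Submodule K (W.H T) := fun e => LinearMap.range (Matrix.mulVecLin e)
  let N : Set ℕ := {n | ∃ e, E e ∧ n = Module.finrank K (rg e)}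
  have hNn : N.Nonempty := ⟨_, 0, ⟨J0, by simp, by simp⟩, rfl⟩
  have hNb : BddAbove N := by
    refine ⟨Module.finrank K (W.H T), ?_⟩
    rintro n ⟨e, -, rfl⟩
    exact Submodule.finrank_le _
  obtain ⟨e, he, hen⟩ := Nat.sSup_mem hNn hNb
  have hmax : ∀ e', E e' → Module.finrank K (rg e') ≤ Module.finrank K (rg e) := by
    intro e' he'
    rw [← hen]
    exact le_csSup hNb ⟨e', he', rfl⟩
  obtain ⟨heJ, hee, heη⟩ := he
  refine ⟨e, heJ.1, hee, heη, heJ.2, ?_⟩
  intro f hfc hfk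
  by_contra hne
  have hf : J f := ⟨hfc, hfk⟩
  have h1e : (1 - e) ∈ W.cyc T T 0 := (W.cyc T T 0).sub_mem hone heJ.1
  have h1ee : (1 - e) * (1 - e) = 1 - e := by
    rw [Matrix.mul_sub, Matrix.mul_one, Matrix.sub_mul, Matrix.one_mul, hee, sub_self, sub_zero]
  have h1eη : (1 - e)ᵀ * S.powers.form = S.powers.form * (1 - e) := by
    rw [Matrix.transpose_sub, Matrix.transpose_one, Matrix.sub_mul, Matrix.mul_sub, heη,
      Matrix.one_mul, Matrix.mul_one]
  have he1 : e * (1 - e) = 0 := by rw [Matrix.mul_sub, Matrix.mul_one, hee, sub_self]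
  have h1e0 : (1 - e) * e = 0 := by rw [Matrix.sub_mul, Matrix.one_mul, hee, sub_self]
  obtain ⟨f', hf', hff⟩ := Jadj f hf
  -- `b` and its adjoint
  have hcut : ∀ g, J g → J ((1 - e) * g * (1 - e)) := by
    intro g hg
    have h2 : J ((1 - e) * g) := Jmul _ _ h1e hg
    refine ⟨hmul _ h1e _ h2.1, fun u hu => ?_⟩
    rw [← Matrix.mulVec_mulVec, Matrix.sub_mulVec, Matrix.one_mulVec, heJ.2 u hu, sub_zero]
    exact h2.2 u hu
  have hb := hcut f hf
  have hb' := hcut f' hf'
  set b := (1 - e) * f * (1 - e) with hbdef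
  set b' := (1 - e) * f' * (1 - e) with hb'def
  have hbb : bᵀ * S.powers.form = S.powers.form * b' := by
    rw [hbdef, hb'def, Matrix.transpose_mul, Matrix.transpose_mul]
    calc (1 - e)ᵀ * (fᵀ * (1 - e)ᵀ) * S.powers.form
        = (1 - e)ᵀ * (fᵀ * ((1 - e)ᵀ * S.powers.form)) := by simp only [Matrix.mul_assoc]
      _ = (1 - e)ᵀ * (fᵀ * S.powers.form * (1 - e)) := by rw [h1eη, Matrix.mul_assoc]
      _ = ((1 - e)ᵀ * S.powers.form) * f' * (1 - e) := by rw [hff]; simp only [Matrix.mul_assoc]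
      _ = S.powers.form * ((1 - e) * f' * (1 - e)) := by rw [h1eη]; simp only [Matrix.mul_assoc]
  have hbb' : b'ᵀ * S.powers.form = S.powers.form * b :=
    adj_adj S.powers b b' (hdeg _ hb'.1) hbb
  have hstr : W.str b = W.str (f * (1 - e)) := by
    have h2 : f * (1 - e) = f * (1 - e) * (1 - e) := by rw [Matrix.mul_assoc, h1ee]
    rw [h2, str_mul_comm (f * (1 - e)) (1 - e) (hdeg _ (hmul _ h1e _ hf.1)), hbdef,
      ← Matrix.mul_assoc]
  have hstr' : W.str b' = W.str b := str_adj S.powers b b' hbb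
  set x := b + b' with hxdef
  have hx : J x := Jadd _ _ hb hb'
  have hxη : xᵀ * S.powers.form = S.powers.form * x := by
    rw [hxdef, Matrix.transpose_add, Matrix.add_mul, hbb, hbb', Matrix.mul_add, add_comm]
  have hxs : W.str x = 2 * W.str b := by
    have h2 : W.str x = W.str b + W.str b' := by
      rw [str_eq, str_eq, str_eq, hxdef, Matrix.mul_add, Matrix.trace_add]
    rw [h2, hstr', two_mul]
  have hxn : ∀ N : ℕ, x ^ N ≠ 0 := by
    intro N hN
    have h2 := str_nilp x (hdeg _ hx.1) N hN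
    rw [hxs] at h2
    rcases mul_eq_zero.1 h2 with h3 | h3
    · exact two_ne_zero h3
    · exact hne (hstr ▸ h3)
  have hxt : ∀ k : ℕ, ∃ q : ℚ, (x ^ (k + 1)).trace = (q : K) := by
    intro k
    obtain ⟨c, hc, hxc⟩ := Jres x hx
    obtain ⟨q, hq⟩ := hRTR K W hW V L hL r m T S.toIntersection c hc k
    refine ⟨q, ?_⟩
    rw [← hq, hxc]
    rfl
  obtain ⟨g, hgi, hgn⟩ := hFTT K (W.rk T) x hxt hxn
  set u := x * Polynomial.aeval x g with hudef
  have hxe : x * e = 0 := by
    have h2 : b * e = 0 := by rw [hbdef, Matrix.mul_assoc, h1e0, Matrix.mul_zero]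
    have h3 : b' * e = 0 := by rw [hb'def, Matrix.mul_assoc, h1e0, Matrix.mul_zero]
    rw [hxdef, Matrix.add_mul, h2, h3, add_zero]
  have hex : e * x = 0 := by
    have h2 : e * b = 0 := by
      rw [hbdef, ← Matrix.mul_assoc, ← Matrix.mul_assoc, he1, Matrix.zero_mul, Matrix.zero_mul]
    have h3 : e * b' = 0 := by
      rw [hb'def, ← Matrix.mul_assoc, ← Matrix.mul_assoc, he1, Matrix.zero_mul, Matrix.zero_mul]
    rw [hxdef, Matrix.mul_add, h2, h3, add_zero]
  have huJ : J u := poly_ind x J J0 Jadd Jsmul (Jpow x hx) g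
  have huη : uᵀ * S.powers.form = S.powers.form * u := by
    refine poly_ind x (fun y => yᵀ * S.powers.form = S.powers.form * y) (by simp) ?_ ?_ ?_ g
    · intro a b ha hb
      rw [Matrix.transpose_add, Matrix.add_mul, ha, hb, Matrix.mul_add]
    · intro q a ha
      rw [Matrix.transpose_smul, Matrix.smul_mul, ha, Matrix.mul_smul]
    · intro i
      induction i with
      | zero => rw [zero_add, pow_one]; exact hxη
      | succ i ih =>
        rw [pow_succ, Matrix.transpose_mul, Matrix.mul_assoc, ih, ← Matrix.mul_assoc, hxη,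
          Matrix.mul_assoc, ← pow_succ', ← pow_succ]
  have hue : u * e = 0 := by
    refine poly_ind x (fun y => y * e = 0) (by simp) ?_ ?_ ?_ g
    · intro a b ha hb
      rw [Matrix.add_mul, ha, hb, add_zero]
    · intro q a ha
      rw [Matrix.smul_mul, ha, smul_zero]
    · intro i
      rw [pow_succ, Matrix.mul_assoc, hxe, Matrix.mul_zero]
  have heu : e * u = 0 := by
    rw [hudef, ← Matrix.mul_assoc, hex, Matrix.zero_mul]
  have hE : E (e + u) := by
    refine ⟨Jadd _ _ heJ huJ, ?_, ?_⟩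
    · rw [Matrix.add_mul, Matrix.mul_add, Matrix.mul_add, hee, heu, hue, hgi, add_zero, zero_add]
    · rw [Matrix.transpose_add, Matrix.add_mul, heη, huη, Matrix.mul_add]
  have hle : rg e ≤ rg (e + u) := by
    rintro _ ⟨y, rfl⟩
    refine ⟨e *ᵥ y, ?_⟩
    show (e + u) *ᵥ (e *ᵥ y) = e *ᵥ y
    rw [Matrix.mulVec_mulVec, Matrix.add_mul, hee, hue, add_zero]
  have hlt : rg e < rg (e + u) := by
    refine lt_of_le_of_ne hle ?_
    intro heq
    refine hgn ?_
    refine Matrix.mulVec_injective (funext fun y => ?_)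
    have h2 : u *ᵥ y ∈ rg (e + u) := by
      refine ⟨u *ᵥ y, ?_⟩
      show (e + u) *ᵥ (u *ᵥ y) = u *ᵥ y
      rw [Matrix.mulVec_mulVec, Matrix.add_mul, heu, hgi, zero_add]
    rw [← heq] at h2
    obtain ⟨z, hz⟩ := h2
    have hz' : e *ᵥ z = u *ᵥ y := hz
    have h3 : e *ᵥ (u *ᵥ y) = u *ᵥ y := by
      rw [← hz', Matrix.mulVec_mulVec, hee]
    rw [Matrix.mulVec_mulVec, heu, Matrix.zero_mulVec] at h3
    rw [← h3, Matrix.zero_mulVec]
  have h4 := Submodule.finrank_lt_finrank_of_lt hlt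
  have h5 := hmax _ hE
  omega

end Pool.Agent.H45.NL
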