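import Pool.Agent.H45.NL.ADJ

/-!
# Numerically trivial correspondences (MP_fd35e1_ag): row SCA
-/

set_option autoImplicit false

open Matrix Pool.Agent.H2.NL Pool.Agent.H64.CC

namespace Pool.Agent.H45.NL

section alg

variable {K : Type} [Field K] {I : Type} [Fintype I]

/-- the endomorphism `x ↦ ⟨u, x⟩ u` -/
def Au (η : Matrix I I K) (u : I → K) : Matrix I I K :=
  Matrix.of fun a b => u a * ∑ c, u c * η c b

theorem Au_mulVec (η : Matrix I I K) (u x : I → K) :
    Au η u *ᵥ x = (u ⬝ᵥ (η *ᵥ x)) • u := by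
  ext a
  show ∑ b, (u a * ∑ c, u c * η c b) * x b = (∑ c, u c * ∑ b, η c b * x b) * u a
  rw [Finset.sum_mul]
  simp only [Finset.mul_sum, Finset.sum_mul]
  rw [Finset.sum_comm]
  refine Finset.sum_congr rfl fun c _ => Finset.sum_congr rfl fun b _ => ?_
  ring

theorem Au_comm (η X : Matrix I I K) (u : I → K) (h1 : ∀ a c, (Au η u * X) a c +
    (X * (Au η u)ᵀ) a c = 0) (h2 : ∀ a, (η *ᵥ u) a = - ∑ c, u c * η c a) :
    Au η u * (X * η) = (X * η) * Au η u := by
  have e1 : Au η u * X = - (X * (Au η u)ᵀ) := by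
    ext a c
    have := h1 a c
    rw [Matrix.neg_apply]
    linear_combination this
  have e2 : (Au η u)ᵀ * η = - (η * Au η u) := by
    ext a b
    rw [Matrix.neg_apply, Matrix.mul_apply, Matrix.mul_apply]
    have e3 : ∑ c, η a c * Au η u c b = (η *ᵥ u) a * ∑ c, u c * η c b := by
      show ∑ c, η a c * (u c * ∑ d, u d * η d b) = (∑ c, η a c * u c) * _
      rw [Finset.sum_mul]
      refine Finset.sum_congr rfl fun c _ => ?_
      ring
    have e4 : ∑ c, (Au η u)ᵀ a c * η c b = (∑ c, u c * η c a) * ∑ c, u c * η c b := by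
      show ∑ c, (u c * ∑ d, u d * η d a) * η c b = _
      rw [Finset.mul_sum]
      refine Finset.sum_congr rfl fun c _ => ?_
      ring
    rw [e3, e4, h2]
    ring
  rw [← Matrix.mul_assoc, e1, Matrix.neg_mul, Matrix.mul_assoc, e2, Matrix.mul_neg, neg_neg,
    Matrix.mul_assoc]

/-- an operator which commutes with all the operators `x ↦ ⟨u, x⟩ u`, `u ∈ V`, is a scalar on `V` -/
theorem scalar_of_comm (η f : Matrix I I K) (V : (I → K) → Prop)
    (hadd : ∀ u v, V u → V v → V (u + v))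
    (hc : ∀ u, V u → Au η u * f = f * Au η u)
    (hskew : ∀ u v, V u → V v → v ⬝ᵥ (η *ᵥ u) = - (u ⬝ᵥ (η *ᵥ v)))
    (hnd : ∀ u, V u → (∀ v, V v → u ⬝ᵥ (η *ᵥ v) = 0) → u = 0) :
    ∃ c : K, ∀ u, V u → f *ᵥ u = c • u := by
  by_cases h0 : ∀ u, V u → u = 0
  · exact ⟨0, fun u hu => by rw [h0 u hu]; simp⟩
  push Not at h0
  obtain ⟨u0, hu0, hu0n⟩ := h0
  have h1 : ∃ v0, V v0 ∧ u0 ⬝ᵥ (η *ᵥ v0) ≠ 0 := by
    by_contra hcon
    push Not at hcon
    exact hu0n (hnd u0 hu0 hcon)
  obtain ⟨v0, hv0, hs⟩ := h1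
  have hcom : ∀ u x, V u → (u ⬝ᵥ (η *ᵥ x)) • (f *ᵥ u) = (u ⬝ᵥ (η *ᵥ (f *ᵥ x))) • u := by
    intro u x hu
    have h2 := congrArg (fun A : Matrix I I K => A *ᵥ x) (hc u hu)
    simp only [← Matrix.mulVec_mulVec, Au_mulVec, Matrix.mulVec_smul] at h2
    exact h2.symm
  set s := u0 ⬝ᵥ (η *ᵥ v0) with hsdef
  set c := s⁻¹ * (u0 ⬝ᵥ (η *ᵥ (f *ᵥ v0))) with hcdef
  have hu0e : f *ᵥ u0 = c • u0 := by
    have h2 := hcom u0 v0 hu0
    rw [← hsdef] at h2
    have h3 := congrArg (fun y : I → K => s⁻¹ • y) h2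
    simp only [smul_smul] at h3
    rw [inv_mul_cancel₀ hs, one_smul] at h3
    exact h3
  have hv0e : f *ᵥ v0 = c • v0 := by
    have h2 := hcom v0 u0 hv0
    rw [hskew u0 v0 hu0 hv0, ← hsdef, hu0e, Matrix.mulVec_smul, dotProduct_smul,
      hskew u0 v0 hu0 hv0, ← hsdef] at h2
    have h3 := congrArg (fun y : I → K => (-s)⁻¹ • y) h2
    simp only [smul_smul] at h3
    rw [inv_mul_cancel₀ (neg_ne_zero.2 hs), one_smul] at h3
    rw [h3]
    congr 1
    rw [smul_eq_mul, mul_comm c, ← mul_assoc, inv_mul_cancel₀ (neg_ne_zero.2 hs), one_mul]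
  refine ⟨c, fun w hw => ?_⟩
  have h2 := hcom (u0 + w) v0 (hadd u0 w hu0 hw)
  have h3 := hcom u0 v0 hu0
  have h4 := hcom w v0 hw
  rw [hv0e] at h2 h3 h4
  simp only [Matrix.mulVec_smul, dotProduct_smul, add_dotProduct, Matrix.mulVec_add,
    smul_eq_mul, ← hsdef] at h2 h3 h4
  rw [hu0e] at h2 h3
  -- s • f w = (c s) • w
  ext a
  have e2 := congrFun h2 a
  have e4 := congrFun h4 a
  simp only [Pi.smul_apply, Pi.add_apply, smul_eq_mul] at e2 e4 ⊢
  have e5 : s * ((f *ᵥ w) a) = s * (c * w a) := by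
    linear_combination e2 - e4
  exact mul_left_cancel₀ hs e5

end alg

section weil

variable {K : Type} [Field K] [CharZero K] {W : Weil K} {V : W.Var 0} {L : W.Hom V V} {r m : ℕ}
  {T : W.Var m} (S : W.Symplectic V L r T)

theorem van_skew (u : W.H T) (hu : W.InH T (W.dim T) u) (a : Fin (W.rk T)) :
    (S.powers.form *ᵥ u) a = - ∑ c, u c * S.powers.form c a := by
  show ∑ c, S.powers.form a c * u c = _
  rw [← Finset.sum_neg_distrib]
  refine Finset.sum_congr rfl fun c _ => ?_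
  by_cases h1 : u c = 0
  · rw [h1]
    ring
  by_cases h2 : S.powers.form c a = 0
  · rw [S.powers.form_symm a c, h2]
    ring
  have h3 := form_par S.powers c a h2
  have h4 : W.par T c = true := by
    unfold Weil.par
    rw [hu c h1]
    simp [S.odd]
  rw [S.powers.form_symm a c, ← h3, h4]
  have h5 : ks K true true = -1 := by simp [ks]
  rw [h5]
  ring

theorem van_swap (u x : W.H T) (hu : W.InH T (W.dim T) u) :
    x ⬝ᵥ (S.powers.form *ᵥ u) = - (u ⬝ᵥ (S.powers.form *ᵥ x)) := by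
  have h1 : x ⬝ᵥ (S.powers.form *ᵥ u) = ∑ a, x a * (- ∑ c, u c * S.powers.form c a) := by
    show ∑ a, x a * (S.powers.form *ᵥ u) a = _
    refine Finset.sum_congr rfl fun a _ => ?_
    rw [van_skew S u hu]
  rw [h1]
  show _ = - ∑ c, u c * ∑ a, S.powers.form c a * x a
  simp only [mul_neg, Finset.sum_neg_distrib, Finset.mul_sum]
  rw [Finset.sum_comm]
  congr 1
  refine Finset.sum_congr rfl fun c _ => Finset.sum_congr rfl fun a _ => ?_
  ring

theorem van_orth (u : W.H T) (hu : W.Vanishing S.toGenericIntersection u) (y : W.H V) :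
    u ⬝ᵥ (S.powers.form *ᵥ (W.ap S.up y)) = 0 := by
  have h1 := S.orth u hu y
  have h2 : (W.ap S.up y) ⬝ᵥ (S.powers.form *ᵥ u) = 0 := by
    rw [← h1]
    show ∑ a, W.ap S.up y a * ∑ b, S.powers.form a b * u b = _
    refine Finset.sum_congr rfl fun a _ => ?_
    rw [Finset.mul_sum]
    refine Finset.sum_congr rfl fun b _ => ?_
    ring
  rw [van_swap S u _ hu.1] at h2
  exact neg_eq_zero.1 h2

/-- the correspondences commute with the operators of the vanishing classes -/
theorem cyc_comm (f : W.Hom T T) (hf : f ∈ W.cyc T T 0) (u : W.H T)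
    (hu : W.Vanishing S.toGenericIntersection u) :
    Au S.powers.form u * f = f * Au S.powers.form u := by
  obtain ⟨t, ht, hft⟩ := (S.powers.graph_one f).1 hf
  have hX : f = (Matrix.of fun a c => t [a, c]) * S.powers.form := by
    rw [hft]
    ext a b
    rw [Matrix.mul_apply]
    show opw S.powers.form 1 t [a] [b] = _
    rw [opw_one]
    rfl
  rw [hX]
  refine Au_comm _ _ _ ?_ (van_skew S u hu.1)
  intro a c
  have h1 := S.monodromy u hu 1 t ht [a, c] rfl
  rw [← h1]
  show ∑ b, Au S.powers.form u a b * t [b, c] + ∑ b, t [a, b] * Au S.powers.form u c b =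
    ∑ b, Au S.powers.form u a b * t [b, c] + (∑ b, Au S.powers.form u c b * t [a, b] + 0)
  rw [add_zero]
  congr 1
  refine Finset.sum_congr rfl fun b _ => ?_
  ring

theorem van_add (u v : W.H T) (hu : W.Vanishing S.toGenericIntersection u)
    (hv : W.Vanishing S.toGenericIntersection v) :
    W.Vanishing S.toGenericIntersection (u + v) := by
  refine ⟨?_, ?_⟩
  · intro a ha
    by_cases h1 : u a = 0
    · by_cases h2 : v a = 0
      · exact absurd (by simp [h1, h2]) ha
      · exact hv.1 a h2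
    · exact hu.1 a h1
  · show S.down *ᵥ (u + v) = 0
    have h1 : S.down *ᵥ u = 0 := hu.2
    have h2 : S.down *ᵥ v = 0 := hv.2
    rw [Matrix.mulVec_add, h1, h2, add_zero]

end weil

theorem pf_SCA (hVAN : T_VAN) : T_SCA := by
  intro K _ _ W hW V L hL r m T S f hf
  obtain ⟨-, v2, v3, -⟩ := hVAN K W hW V L hL r m T S
  -- the range of `up` is stable
  have hup : ∀ y : W.H V, ∃ y' : W.H V, f *ᵥ (W.ap S.up y) = W.ap S.up y' := by
    intro y
    obtain ⟨v, y', hv, hx⟩ := v2 (f *ᵥ (W.ap S.up y))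
    refine ⟨y', ?_⟩
    have h1 : v = 0 := by
      refine v3 v hv ?_
      intro u hu
      have h2 := congrArg (fun A : W.Hom T T => A *ᵥ (W.ap S.up y)) (cyc_comm S f hf u hu)
      simp only [← Matrix.mulVec_mulVec, Au_mulVec, Matrix.mulVec_smul] at h2
      rw [van_orth S u hu y, zero_smul, hx, Matrix.mulVec_add, dotProduct_add,
        van_orth S u hu y', add_zero] at h2
      rw [van_swap S u v hu.1]
      by_cases h3 : u = 0
      · rw [h3]
        simp
      · rcases smul_eq_zero.1 h2 with h4 | h4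
        · rw [h4, neg_zero]
        · exact absurd h4 h3
    rw [hx, h1, zero_add]
  obtain ⟨c, hc⟩ := scalar_of_comm S.powers.form f (W.Vanishing S.toGenericIntersection)
    (van_add S) (fun u hu => cyc_comm S f hf u hu)
    (fun u v hu _ => van_swap S u v hu.1) v3
  refine S.cycles f hf ?_
  intro g hg
  obtain ⟨-, hgdeg⟩ := S.Gal_deg g hg
  have hgup : ∀ y : W.H V, g *ᵥ (W.ap S.up y) = W.ap S.up y := by
    intro y
    have h1 : g * S.up = S.up := S.up_inv g hg
    show g *ᵥ (S.up *ᵥ y) = S.up *ᵥ y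
    rw [Matrix.mulVec_mulVec, h1]
  have hgvan : ∀ u, W.Vanishing S.toGenericIntersection u →
      W.Vanishing S.toGenericIntersection (g *ᵥ u) := by
    intro u hu
    refine ⟨?_, ?_⟩
    · intro b hb
      have h1 : ∃ a, g b a * u a ≠ 0 := by
        by_contra hcon
        push Not at hcon
        refine hb ?_
        show ∑ a, g b a * u a = 0
        exact Finset.sum_eq_zero fun a _ => hcon a
      obtain ⟨a, ha⟩ := h1
      have h2 := hgdeg b a (left_ne_zero_of_mul ha)
      have h3 := hu.1 a (right_ne_zero_of_mul ha)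
      rw [h3] at h2
      omega
    · have h1 : S.down * g = S.down := S.down_inv g hg
      show S.down *ᵥ (g *ᵥ u) = 0
      rw [Matrix.mulVec_mulVec, h1]
      exact hu.2
  show g * f = f * g
  refine Matrix.mulVec_injective (funext fun x => ?_)
  obtain ⟨v, y, hv, hx⟩ := v2 x
  obtain ⟨y', hy'⟩ := hup y
  rw [← Matrix.mulVec_mulVec, ← Matrix.mulVec_mulVec, hx, Matrix.mulVec_add, Matrix.mulVec_add,
    Matrix.mulVec_add, Matrix.mulVec_add, hc v hv, hy', hgup, hgup, hy', hc _ (hgvan v hv),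
    Matrix.mulVec_smul]

end Pool.Agent.H45.NL
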